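import Pool.Agent.H51.OR.F4

/-!
# MP_e1fd52_al, board org_modules, rows F5, F6, CO
-/

set_option autoImplicit false

open scoped Classical

namespace Pool.Agent.H51.OR

open ORg

theorem ne_one_of_root {X : Type} {w : FreeGroup X} (h : Root w) : w ≠ 1 := by
  intro h1
  have h2 := h 1 0 (by rw [h1]; simp)
  omega

theorem pf_F5 (TA : T_TA) (TN : T_TN) (F4 : T_F4) : T_F5 := by
  intro X1 X2 P G _ _ w a iF iP S r b X1' X2' P' G' _ _ w' a' iF' iP' S' r' b' h h' φ hP
  obtain ⟨v, hv, hfix⟩ := F4 X1 X2 P G w a iF iP S r b X1' X2' P' G' w' a' iF' iP' S' r' b' h h'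
    φ hP
  obtain ⟨_, _, _, _, t5, _, _, _, t9, _⟩ := TA G' S'
  obtain ⟨_, _, n3⟩ := TN G' S'
  have hw : w ≠ 1 := ne_one_of_root h.root
  have hx : φ (iF (fl w)) ≠ 1 := by
    intro h1
    apply hw
    apply fl_inj (X2 := X2)
    rw [map_one]
    apply h.injF
    rw [map_one]
    apply φ.injective
    rw [h1, map_one]
  have hxr : φ (iF (fl w)) • r' = r' := by
    rw [h'.am.stA, h.eq, ← hP]
    exact ⟨a, rfl⟩
  have hne : v ≠ r' := by
    intro h1
    rw [h1] at hv
    exact hv h'.am.red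
  obtain ⟨c, hc, hc2⟩ := t9 v r' hne
  have h3 := n3 (φ (iF (fl w))) r' v c v hxr (hfix w) hc.symm hc2 (t5 v c hc).1
  have hcr : S'.red c := (S'.red_adj _ _ hc.symm).2 hv
  have hcr' : c = r' := h'.ac _ hx c r' hcr h'.am.red h3.1 hxr
  have hadj : S'.T.Adj r' v := by
    rw [← hcr']
    exact hc.symm
  obtain ⟨k, hk1, hk2⟩ := h'.am.edge _ _ h'.am.red hadj
  have hk : k ∈ iP'.range := (h'.am.stA k).1 hk1.symm
  refine ⟨k⁻¹, inv_mem hk, fun y => ?_⟩
  rw [← h'.am.stB, inv_inv, mul_smul, mul_smul, ← hk2, hfix y, hk2, inv_smul_smul]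

theorem pf_F6 (LS : T_LS) (AP : T_AP) : T_F6 := by
  intro X1 X2 P G _ _ w a iF iP S r b X1' X2' P' G' _ _ w' a' iF' iP' S' r' b' h h' φ hP hF
  have hfin := h.fin
  have hnt := h.nt
  let e := MonoidHom.ofInjective h'.injF
  let ψ : FreeGroup X1 →* FreeGroup (X1' ⊕ X2') := e.symm.toMonoidHom.comp
    ((φ.toMonoidHom.comp (iF.comp fl)).codRestrict iF'.range hF)
  have hψ : ∀ y, iF' (ψ y) = φ (iF (fl y)) := by
    intro y
    have h1 : e (ψ y) = ⟨φ (iF (fl y)), hF y⟩ := e.apply_symm_apply _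
    have h2 := congrArg Subtype.val h1
    rw [MonoidHom.ofInjective_apply] at h2
    exact h2
  have hinj : Function.Injective ψ := by
    intro y z hyz
    have h1 : φ (iF (fl y)) = φ (iF (fl z)) := by rw [← hψ, ← hψ, hyz]
    exact fl_inj (h.injF (φ.injective h1))
  obtain ⟨S0, r0, b0, hAm, hfree⟩ := AP X1' X2'
  have hwr : ψ w • r0 = r0 := by
    have h1 : φ (iF (fl w)) ∈ iP'.range := by
      rw [h.eq, ← hP]
      exact ⟨a, rfl⟩
    obtain ⟨p, hp⟩ := h1
    obtain ⟨k, hk, _⟩ := h'.inter (ψ w) p (by rw [hψ, hp])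
    rw [hAm.stA, hk]
    exact ⟨w' ^ k, by rw [map_zpow]⟩
  have hLS := LS X1 w (S0.comap ψ) h.root h.wh ⟨r0, hwr⟩ (by
    intro u v huv
    refine ⟨1, fun g hg1 hg2 => ?_⟩
    have h1 : ψ g = 1 := by
      by_contra hne
      have h2 : u = v := hfree (ψ g) hne u v hg1 hg2
      have h3 : S0.T.Adj u v := huv
      exact h3.ne h2
    have h2 : g = 1 := hinj (by rw [h1, map_one])
    rw [h2]
    simp)
  obtain ⟨v, hv⟩ := hLS
  have hw1 : ψ w ≠ 1 := by
    intro h1
    exact ne_one_of_root h.root (hinj (by rw [h1, map_one]))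
  have hvr : r0 = v := hfree (ψ w) hw1 r0 v hwr (hv w)
  intro y
  have h1 : ψ y • r0 = r0 := by
    rw [hvr]
    exact hv y
  obtain ⟨z, hz⟩ := (hAm.stA _).1 h1
  refine ⟨z, ?_⟩
  rw [MonoidHom.comp_apply, ← hψ]
  exact congrArg iF' hz

/-- an isomorphism which preserves the images of two embeddings -/
theorem exists_equiv {A A' G G' : Type} [Group A] [Group A'] [Group G] [Group G'] (f : A →* G)
    (f' : A' →* G') (hf : Function.Injective f) (hf' : Function.Injective f') (φ : G ≃* G')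
    (h : ∀ x : G, x ∈ f.range ↔ φ x ∈ f'.range) : ∃ α : A ≃* A', ∀ y, f' (α y) = φ (f y) := by
  let e := MonoidHom.ofInjective hf'
  have hF : ∀ y, (φ.toMonoidHom.comp f) y ∈ f'.range := fun y => (h _).1 ⟨y, rfl⟩
  let ψ : A →* A' := e.symm.toMonoidHom.comp ((φ.toMonoidHom.comp f).codRestrict f'.range hF)
  have hψ : ∀ y, f' (ψ y) = φ (f y) := by
    intro y
    have h1 : e (ψ y) = ⟨φ (f y), hF y⟩ := e.apply_symm_apply _
    have h2 := congrArg Subtype.val h1
    rw [MonoidHom.ofInjective_apply] at h2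
    exact h2
  have hb : Function.Bijective ψ := by
    constructor
    · intro y z hyz
      have h1 : φ (f y) = φ (f z) := by rw [← hψ, ← hψ, hyz]
      exact hf (φ.injective h1)
    · intro z
      have h1 : φ.symm (f' z) ∈ f.range := by
        rw [h]
        exact ⟨z, by simp⟩
      obtain ⟨y, hy⟩ := h1
      refine ⟨y, hf' ?_⟩
      rw [hψ, hy]
      simp
  exact ⟨MulEquiv.ofBijective ψ hb, hψ⟩

theorem image_range {A A' G G' : Type} [Group A] [Group A'] [Group G] [Group G'] (f : A →* G)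
    (f' : A' →* G') (φ : G ≃* G')
    (h : ∀ x : G, x ∈ f.range ↔ φ x ∈ f'.range) :
    φ.toMonoidHom '' (f.range : Set G) = (f'.range : Set G') := by
  ext y
  constructor
  · rintro ⟨x, hx, rfl⟩
    exact (h x).1 hx
  · intro hy
    refine ⟨φ.symm y, ?_, by simp⟩
    have : φ.symm y ∈ f.range := by
      rw [h]
      simpa using hy
    exact this

theorem pf_CO (SU : T_SU) (F7 : T_F7) (X2 : T_X2) : T_CO := by
  intro X1 Y2 P G _ _ w a iF iP X1' Y2' P' G' _ _ w' a' iF' iP' hPO hPO' hr hwh hfin hnt hKK hInf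
    hr' hwh' hfin' hnt' hKK' hInf' hG
  obtain ⟨S, r, b, h⟩ := SU X1 Y2 P G w a iF iP hPO hr hwh hfin hnt hKK hInf
  obtain ⟨S', r', b', h'⟩ := SU X1' Y2' P' G' w' a' iF' iP' hPO' hr' hwh' hfin' hnt' hKK' hInf'
  obtain ⟨φ, hP, hF⟩ := F7 X1 Y2 P G w a iF iP S r b X1' Y2' P' G' w' a' iF' iP' S' r' b' h h' hG
  have hi1 : Function.Injective (iF.comp (fl : FreeGroup X1 →* FreeGroup (X1 ⊕ Y2))) :=
    h.injF.comp fl_inj
  have hi2 : Function.Injective (iF'.comp (fl : FreeGroup X1' →* FreeGroup (X1' ⊕ Y2'))) :=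
    h'.injF.comp fl_inj
  obtain ⟨α, hα⟩ := exists_equiv _ _ hi1 hi2 φ hF
  obtain ⟨β, hβ⟩ := exists_equiv _ _ h.injP h'.injP φ hP
  refine ⟨α, β, ?_, ?_⟩
  · obtain ⟨e1⟩ := X2 X1 Y2 P G w a iF iP hPO
    obtain ⟨e2⟩ := X2 X1' Y2' P' G' w' a' iF' iP' hPO'
    have hmap : (Subgroup.normalClosure ((iP.range : Set G) ∪
        ((iF.comp (fl : FreeGroup X1 →* FreeGroup (X1 ⊕ Y2))).range : Set G))).map φ.toMonoidHom =
        Subgroup.normalClosure ((iP'.range : Set G') ∪
        ((iF'.comp (fl : FreeGroup X1' →* FreeGroup (X1' ⊕ Y2'))).range : Set G')) := by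
      rw [Subgroup.map_normalClosure _ _ φ.surjective, Set.image_union, image_range _ _ φ hP,
        image_range _ _ φ hF]
    exact ⟨e1.symm.trans ((QuotientGroup.congr _ _ φ hmap).trans e2)⟩
  · have h1 : iF' (fl (α w)) = iP' (β a) := by
      have h2 := hα w
      rw [MonoidHom.comp_apply, MonoidHom.comp_apply, h.eq] at h2
      rw [h2, hβ]
    obtain ⟨k, hk1, hk2⟩ := h'.inter _ _ h1
    have h3 : α w = w' ^ k := by
      apply fl_inj (X2 := Y2')
      rw [hk1, map_zpow]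
    have h4 : (α.symm w') ^ k = w := by
      rw [← map_zpow, ← h3, MulEquiv.symm_apply_apply]
    rcases h.root _ _ h4 with rfl | rfl
    · left
      rw [h3, hk2]
      simp
    · right
      rw [h3, hk2]
      simp

end Pool.Agent.H51.OR
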